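import Pool.Agent.H.MP_193372_co.A

set_option autoImplicit false

namespace Pool.Agent.Results.MP_193372_co.Chi

open Pool.Agent.H.MP_193372_co

theorem result :
    IsGreatest {k : ℕ∞ | ∃ (n : ℕ) (G : SimpleGraph (Fin n)), UVI G ∧ G.chromaticNumber = k} 4 ∧
    IsGreatest {k : ℕ∞ | ∃ (n : ℕ) (G : SimpleGraph (Fin n)), MUVI G ∧ G.chromaticNumber = k} 3 ∧
    IsGreatest {k : ℕ∞ | ∃ (n : ℕ) (G : SimpleGraph (Fin n)), MPVI G ∧ G.chromaticNumber = k} 3 := by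
  have h5 := chi_eq (mpvi_three g5_muvi.mpvi) g5_not
  refine ⟨⟨⟨16, _, g16_uvi, chi_eq (uvi_four g16_uvi) g16_not⟩, ?_⟩,
    ⟨⟨5, _, g5_muvi, h5⟩, ?_⟩, ⟨⟨5, _, g5_muvi.mpvi, h5⟩, ?_⟩⟩
  · rintro _ ⟨n, G, h, rfl⟩
    exact (uvi_four h).chromaticNumber_le
  · rintro _ ⟨n, G, h, rfl⟩
    exact (mpvi_three h.mpvi).chromaticNumber_le
  · rintro _ ⟨n, G, h, rfl⟩
    exact (mpvi_three h).chromaticNumber_le

end Pool.Agent.Results.MP_193372_co.Chi
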